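import Pool.Agent.Helper88.DnMain
import Pool.Agent.Helper88.DnArc
import Pool.Agent.Helper39.Peano
import Pool.Agent.Helper32.Arc

/-!
# One-point unions of k-to-1 images of dendrites

If two continua in a metric space meet in exactly one point and each of them is a `k`-to-1 image
of a dendrite (`k ≥ 2`), then so is their union.

Idea of the proof. Glue the two dendrites at one point over the common point `p`; the resulting
dendrite is mapped onto the union, all fibres have `k` points except that the fibre over `p` has
`2k - 1` points. One point of the fibre over `p` can be removed as follows. Take two points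
`a, a'` of that fibre and the arc between them. By Baire's theorem there are `δ > 0`, a point `c`
of the open arc and points `x_n → c` of the arc, monotone from one side, with `x_n` having a
companion `d_n` in its fibre at distance at least `δ`, where `d_n → d ≠ c`. Cut the dendrite at
`c` and at all the `x_n`, glue `a` to `a'`, and reattach the block between `x_{n+1}` and `x_n` at
`d_n` along its copy of `x_n`. The result is a dendrite again, the map stays continuous, the
fibre over `p` has lost one point and the other fibres have the same number of points as before.
-/

set_option autoImplicit false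

open Pool.Agent.Helper88.Dn

namespace Pool.Agent.Results.MP_f86da0_gt.WedgeKToOne

theorem result.{u} (k : ℕ) (hk : 2 ≤ k) (M : Type u) [MetricSpace M] (Y₁ Y₂ : Set M)
    (h₁ : IsKToOneImage k Y₁) (h₂ : IsKToOneImage k Y₂) (p : M) (hp : Y₁ ∩ Y₂ = {p}) :
    IsKToOneImage k (Y₁ ∪ Y₂ : Set M) := by
  refine main_of_arc (fun D _ hD => ?_) k hk Y₁ Y₂ p hp h₁ h₂
  have i1 : CompactSpace D := hD.continuum.compact
  have i3 : TopologicalSpace.MetrizableSpace D := hD.continuum.metrizable
  have i4 : LocallyConnectedSpace D := hD.locallyConnected
  let _ : MetricSpace D := TopologicalSpace.metrizableSpaceMetric D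
  exact arcProp_of hD (Pool.Agent.Helper39.Peano.locPathConnected_of_compact D)
    (fun hab γ => Pool.Agent.Helper32.Arc.exists_arc hab γ)

end Pool.Agent.Results.MP_f86da0_gt.WedgeKToOne
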